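import Pool.Agent.K3h11.Zer.Main

/-!
# The index of the Fitting subgroup is bounded in terms of the zeros in a row of the character table
and the index of a solvable normal subgroup

For a finite group `G` let `maxZeros G` be the largest number of conjugacy classes on which an
irreducible complex character of `G` vanishes. There is a function `f` with
`|G : F(G)| ≤ f (maxZeros G) |G : R|` for every finite group `G` and every solvable normal subgroup
`R` of `G`. With `R = G` this bounds `|G : F(G)|` in terms of `maxZeros G` for all solvable groups.
With `R` the eighth term of the Fitting series it shows, together with the known theorem that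
`|G : F_8(G)|` is bounded in terms of `maxZeros G`, that `|G : F(G)|` is bounded in terms of
`maxZeros G` for all finite groups.

Proof. If `B / F(G)` is an abelian normal subgroup of `G / F(G)`, some linear character `l` of `F(G)`
has stabilizer `F(G)` in `B` (`exists_regular`: the elements of `B` which act unipotently on the linear
characters of `F(G)` form a normal nilpotent subgroup, and a commuting family of operators of a finite
abelian group has a vector fixed only by the unipotent ones). An irreducible character over `l`
vanishes on all classes which miss the stabilizer of `l`. So the stabilizers of linear characters give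
a set of subgroups of `G / F(G)` each of which misses at most `m` classes, and each abelian normal
subgroup meets one of them trivially. This bounds the order of a nilpotent normal subgroup `P` of
`G / F(G)` in terms of `m` and its index `k` (`abs_bound`): abelian normal subgroups of `G / F(G)` in `P`
are bounded, since their nontrivial elements lie in at most `m` classes, each contained in few cosets of
a smaller one. Let `A` be a maximal one, `C` the group of the elements of `C_P(A)` which are central in
`P` modulo `A`, and `I` one of the stabilizers which meets `A` trivially. Then `I ∩ C` is abelian, all but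
few elements of `C` are in one of the at most `k` conjugates of `(I ∩ C) A`, and these have
intersection `A`. So `C` is bounded, and `C_P(C) = A`.
By induction along the quotients `G, G / F_1(G), G / F_2(G), …` the index of every term is bounded in
terms of `m`, `|G : R|` and the number of steps from the top; and at each step there is an element whose
centralizer in `G` has bounded order. If there are more than `m` steps, no irreducible character
vanishes at all of the first `m + 1` of these elements, and at most `|C_G(x)|` irreducible characters do
not vanish at `x` (`nonvanish_card`, from column orthogonality and Galois conjugation); so the number of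
irreducible characters is bounded, and with it the number of steps.
-/

set_option autoImplicit false

namespace Pool.Agent.Results.MP_ad7422_al.FittingIndexBounded

/-- The Fitting subgroup of `G`: the subgroup generated by the nilpotent normal subgroups of `G`
(for finite `G` the largest nilpotent normal subgroup, see `fitting_spec`). -/
def fitting (G : Type) [Group G] : Subgroup G :=
  sSup {N : Subgroup G | N.Normal ∧ Group.IsNilpotent N}

/-- The irreducible complex characters of `G`. -/
def Irr (G : Type) [Group G] : Set (G → ℂ) :=
  {χ | ∃ V : FDRep ℂ G, CategoryTheory.Simple V ∧ V.character = χ}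

/-- The number of conjugacy classes of `G` on which `χ` takes the value `0`. -/
noncomputable def zeros {G : Type} [Group G] (χ : G → ℂ) : ℕ :=
  {c : ConjClasses G | ∀ g : G, ConjClasses.mk g = c → χ g = 0}.ncard

/-- The largest number of zeros in a row of the character table of `G` (for finite `G` it is a maximum,
see `maxZeros_spec`). -/
noncomputable def maxZeros (G : Type) [Group G] : ℕ :=
  sSup {n : ℕ | ∃ χ ∈ Irr G, zeros χ = n}

/-- For finite `G`, `fitting G` is the largest nilpotent normal subgroup. -/
theorem fitting_spec (G : Type) [Group G] [Finite G] :
    (fitting G).Normal ∧ Group.IsNilpotent (fitting G) ∧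
      ∀ N : Subgroup G, N.Normal → Group.IsNilpotent N → N ≤ fitting G := by
  obtain ⟨F, hF⟩ := Pool.Agent.K3h11.Zer.exists_fit G
  have h : fitting G = F := by
    apply le_antisymm
    · exact sSup_le fun N hN => hF.2.2 N hN.1 hN.2
    · exact le_sSup ⟨hF.1, hF.2.1⟩
  rw [h]
  exact hF

theorem bddAbove_zeros (G : Type) [Group G] [Finite G] :
    BddAbove {n : ℕ | ∃ χ ∈ Irr G, zeros χ = n} := by
  refine ⟨Nat.card (ConjClasses G), ?_⟩
  rintro n ⟨χ, _, rfl⟩
  rw [← Set.ncard_univ]
  exact Set.ncard_le_ncard (Set.subset_univ _) (Set.toFinite _)

/-- For finite `G`, `maxZeros G` is attained, and is the largest number of zeros. -/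
theorem maxZeros_spec (G : Type) [Group G] [Finite G] :
    (∃ χ ∈ Irr G, zeros χ = maxZeros G) ∧ ∀ χ ∈ Irr G, zeros χ ≤ maxZeros G := by
  refine ⟨?_, fun χ hχ => le_csSup (bddAbove_zeros G) ⟨χ, hχ, rfl⟩⟩
  have := Fintype.ofFinite G
  obtain ⟨V, hV, _⟩ := Pool.Agent.K3h11.Zer.exists_over (⊥ : Subgroup G) 1
  have hne : {n : ℕ | ∃ χ ∈ Irr G, zeros χ = n}.Nonempty :=
    ⟨zeros V.character, V.character, ⟨V, hV, rfl⟩, rfl⟩
  exact Nat.sSup_mem hne (bddAbove_zeros G)

/-- There is a function `f` such that `|G : F(G)| ≤ f (maxZeros G) |G : R|` for every finite group `G`
and every solvable normal subgroup `R` of `G`. -/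
theorem result : ∃ f : ℕ → ℕ → ℕ, ∀ (G : Type) [Group G] [Finite G] (R : Subgroup G),
    R.Normal → Group.IsSolvable R → (fitting G).index ≤ f (maxZeros G) R.index := by
  refine ⟨Pool.Agent.K3h11.Zer.bd, fun G _ _ R hR hsol => ?_⟩
  exact Pool.Agent.K3h11.Zer.index_bound (fun χ hχ => (maxZeros_spec G).2 χ hχ) R hR hsol le_rfl
    (fitting G) (fitting_spec G)

end Pool.Agent.Results.MP_ad7422_al.FittingIndexBounded
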